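import Mathlib

/-!
# A normal first-countable weakly Lindelöf space that is not cellular-Lindelöf, under CH

The point set is `G ∪ D` where `G = Y × ℕ` sits in the compact metrizable space
`K = Y × 2^ω` as `Y × Q` (`Q` countable dense in `2^ω`), and `D` is the graph of a
function `Y → 2^ω \ Q` built by a Lusin type construction.  Points of `D` are isolated;
a point `x` of `G` gets clopen neighbourhoods `W(x,n)` by recursion along a well-order
with countable initial segments, so that `W(x,n)` meets the line `Y × {q}` of `x` in a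
countable set, while `W(x,n)` contains Euclidean balls around points of `D`.
-/

open Set Topology TopologicalSpace

namespace Pool.Agent.Helper21.CH

/-- A cellular family: a family of pairwise disjoint nonempty open sets. -/
def IsCellularFamily {X : Type*} [TopologicalSpace X] (U : Set (Set X)) : Prop :=
  (∀ u ∈ U, IsOpen u ∧ u.Nonempty) ∧ ∀ u ∈ U, ∀ v ∈ U, u ≠ v → Disjoint u v

/-- Weakly Lindelöf: every open cover has a countable subfamily with dense union. -/
def WeaklyLindelof (X : Type*) [TopologicalSpace X] : Prop :=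
  ∀ U : Set (Set X), (∀ u ∈ U, IsOpen u) → ⋃₀ U = univ →
    ∃ V : Set (Set X), V ⊆ U ∧ V.Countable ∧ Dense (⋃₀ V)

/-- Cellular-Lindelöf: for every cellular family there is a subset, Lindelöf in the
subspace topology, which meets every member of the family. -/
def CellularLindelof (X : Type*) [TopologicalSpace X] : Prop :=
  ∀ U : Set (Set X), IsCellularFamily U →
    ∃ L : Set X, LindelofSpace L ∧ ∀ u ∈ U, (L ∩ u).Nonempty

/-- The combinatorial data from which the space is built. -/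
structure Frame (X : Type) where
  D : Set X
  E : ℕ → X → X → Prop
  refl : ∀ n x, E n x x
  symm : ∀ {n x y}, E n x y → E n y x
  trans : ∀ {n x y z}, E n x y → E n y z → E n x z
  anti : ∀ {m n x y}, m ≤ n → E n x y → E m x y
  sep : ∀ x y, (∀ n, E n x y) → x = y
  c : ℕ → X × ℕ
  hc : ∀ x n, ∃ i, (c i).2 = n ∧ E n (c i).1 x
  part : X → ℕ
  hpart : ∀ x i, (x ∈ D ∨ part x ≠ i) → ∃ m, ∀ w, w ∉ D → part w = i → ¬ E m x w
  tgt : X → ℕ → X
  mm : X → ℕ → ℕ
  htgt : ∀ x k, E k x (tgt x k)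
  hmm : ∀ x k, k ≤ mm x k
  lt : X → X → Prop
  wf : WellFounded lt
  hlt : ∀ x k, x ∉ D → tgt x k ≠ x → tgt x k ∈ D ∨ lt (tgt x k) x
  havoid : ∀ x k, x ∉ D → (tgt x k ∈ D ∨ part (tgt x k) ≠ part x) →
    ∀ w, w ∉ D → part w = part x → ¬ E (mm x k) (tgt x k) w
  kunen : ∀ A : ℕ → X, ∃ N : Set X, N.Countable ∧ ∀ x, x ∉ D → x ∉ N →
    (∀ n, ∃ j, E n x (A j)) → ∀ n, ∃ k, n ≤ k ∧ tgt x k ≠ x ∧ ∃ j, tgt x k = A j
  lusin : ∀ C : Set X, C ⊆ D → ¬ C.Countable →
    ¬ {x | x ∉ D ∧ ∀ n, ∃ d ∈ C, E n x d}.Countable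
  big : ∀ C : Set X, C.Countable → (∀ x ∈ C, x ∉ D) →
    ∃ h : X → ℕ, ¬ {d | d ∈ D ∧ ∀ x ∈ C, ¬ E (h x) x d}.Countable

namespace Frame

variable {X : Type} (F : Frame X)

/-- `F.Mem x n z` says that `z` lies in the `n`-th basic neighbourhood of `x`. -/
inductive Mem : X → ℕ → X → Prop
  | self (x : X) (n : ℕ) : Mem x n x
  | ball (x : X) (n : ℕ) (z : X) : x ∈ F.D → F.E n x z → Mem x n z
  | step (x : X) (n k : ℕ) (z : X) : x ∉ F.D → n ≤ k → F.tgt x k ≠ x →
      Mem (F.tgt x k) (F.mm x k) z → Mem x n z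

lemma mem_E {x : X} {n : ℕ} {z : X} (h : F.Mem x n z) : F.E n x z := by
  induction h with
  | self x n => exact F.refl n x
  | ball x n z _ h => exact h
  | step x n k z _ hk _ _ ih =>
    exact F.trans (F.anti hk (F.htgt x k)) (F.anti (hk.trans (F.hmm x k)) ih)

lemma mem_mono {x : X} {n n' : ℕ} {z : X} (hn : n' ≤ n) (h : F.Mem x n z) : F.Mem x n' z := by
  cases h with
  | self => exact Mem.self _ _
  | ball _ _ _ hx h => exact Mem.ball _ _ _ hx (F.anti hn h)
  | step _ _ k _ hx hk ht h => exact Mem.step _ _ k _ hx (hn.trans hk) ht h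

lemma mem_D {x : X} (hx : x ∈ F.D) {n : ℕ} {z : X} : F.Mem x n z ↔ F.E n x z := by
  refine ⟨F.mem_E, fun h => Mem.ball _ _ _ hx h⟩

lemma mem_open {x : X} {n : ℕ} {z : X} (h : F.Mem x n z) :
    ∃ m, ∀ w, F.Mem z m w → F.Mem x n w := by
  induction h with
  | self x n => exact ⟨n, fun w hw => hw⟩
  | ball x n z hx h =>
    exact ⟨n, fun w hw => Mem.ball _ _ _ hx (F.trans h (F.mem_E hw))⟩
  | step x n k z hx hk ht _ ih =>
    obtain ⟨m, hm⟩ := ih
    exact ⟨m, fun w hw => Mem.step _ _ k _ hx hk ht (hm w hw)⟩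

lemma mem_clopen (x : X) : ∀ (n : ℕ) (z : X), ¬ F.Mem x n z →
    ∃ m, ∀ w, F.Mem z m w → ¬ F.Mem x n w := by
  have hD : ∀ x ∈ F.D, ∀ (n : ℕ) (z : X), ¬ F.Mem x n z →
      ∃ m, ∀ w, F.Mem z m w → ¬ F.Mem x n w := by
    intro x hx n z h
    rw [F.mem_D hx] at h
    refine ⟨n, fun w hw hw' => h ?_⟩
    rw [F.mem_D hx] at hw'
    exact F.trans hw' (F.symm (F.mem_E hw))
  induction x using F.wf.induction with
  | _ x ih =>
  by_cases hx : x ∈ F.D
  · exact hD x hx
  intro n z h
  have hne : z ≠ x := by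
    rintro rfl
    exact h (Mem.self _ _)
  have hk0 : ∃ k0, ¬ F.E k0 x z := by
    by_contra hcon
    push Not at hcon
    exact hne (F.sep _ _ hcon).symm
  obtain ⟨k0, hk0⟩ := hk0
  have key : ∀ k, ∃ m, n ≤ k → F.tgt x k ≠ x → ∀ w, F.Mem z m w →
      ¬ F.Mem (F.tgt x k) (F.mm x k) w := by
    intro k
    by_cases hk : n ≤ k ∧ F.tgt x k ≠ x
    · obtain ⟨hk, ht⟩ := hk
      have hz : ¬ F.Mem (F.tgt x k) (F.mm x k) z := fun h' => h (Mem.step _ _ k _ hx hk ht h')
      rcases F.hlt x k hx ht with h1 | h1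
      · obtain ⟨m, hm⟩ := hD _ h1 _ _ hz
        exact ⟨m, fun _ _ => hm⟩
      · obtain ⟨m, hm⟩ := ih _ h1 _ _ hz
        exact ⟨m, fun _ _ => hm⟩
    · exact ⟨0, fun h1 h2 => absurd ⟨h1, h2⟩ hk⟩
  choose M hM using key
  refine ⟨max k0 ((Finset.range k0).sup M), fun w hw hw' => ?_⟩
  have hzw : F.E k0 z w := F.mem_E (F.mem_mono (le_max_left _ _) hw)
  cases hw' with
  | self => exact hk0 (F.symm hzw)
  | ball _ _ _ hx' _ => exact hx hx'
  | step _ _ k _ _ hk ht h' =>
    by_cases hkk : k < k0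
    · refine hM k hk ht w (F.mem_mono ?_ hw) h'
      exact le_trans (Finset.le_sup (f := M) (Finset.mem_range.2 hkk)) (le_max_right _ _)
    · push Not at hkk
      have h1 : F.E k0 x w :=
        F.trans (F.anti hkk (F.htgt x k)) (F.anti (hkk.trans (F.hmm x k)) (F.mem_E h'))
      exact hk0 (F.trans h1 (F.symm hzw))

lemma mem_countable (x : X) (hx : x ∉ F.D) (n : ℕ) :
    {z | F.Mem x n z ∧ z ∉ F.D ∧ F.part z = F.part x}.Countable := by
  induction x using F.wf.induction generalizing n with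
  | _ x ih =>
  have hsub : {z | F.Mem x n z ∧ z ∉ F.D ∧ F.part z = F.part x} ⊆
      {x} ∪ ⋃ k : ℕ, {z | F.tgt x k ≠ x ∧ F.Mem (F.tgt x k) (F.mm x k) z ∧ z ∉ F.D ∧
        F.part z = F.part x} := by
    rintro z ⟨hz, hzD, hzp⟩
    cases hz with
    | self => exact Or.inl rfl
    | ball _ _ _ hx' _ => exact absurd hx' hx
    | step _ _ k _ _ hk ht h' =>
      right
      exact mem_iUnion.2 ⟨k, ht, h', hzD, hzp⟩
  refine Countable.mono hsub ((countable_singleton x).union (countable_iUnion fun k => ?_))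
  by_cases hcase : F.tgt x k ∈ F.D ∨ F.part (F.tgt x k) ≠ F.part x
  · have : {z | F.tgt x k ≠ x ∧ F.Mem (F.tgt x k) (F.mm x k) z ∧ z ∉ F.D ∧
        F.part z = F.part x} = ∅ := by
      ext z
      simp only [mem_empty_iff_false, iff_false]
      rintro ⟨_, h1, h2, h3⟩
      exact F.havoid x k hx hcase z h2 h3 (F.mem_E h1)
    rw [this]
    exact countable_empty
  · push Not at hcase
    obtain ⟨h1, h2⟩ := hcase
    by_cases ht : F.tgt x k = x
    · have : {z | F.tgt x k ≠ x ∧ F.Mem (F.tgt x k) (F.mm x k) z ∧ z ∉ F.D ∧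
          F.part z = F.part x} = ∅ := by
        ext z
        simp [ht]
      rw [this]
      exact countable_empty
    · rcases F.hlt x k hx ht with h3 | h3
      · exact absurd h3 h1
      · refine (ih _ h3 h1 (F.mm x k)).mono ?_
        rintro z ⟨_, h4, h5, h6⟩
        exact ⟨h4, h5, h6.trans h2.symm⟩

/-- The topology: points of `D` are isolated, a point outside `D` has the sets
`{z | F.Mem x n z}` as a neighbourhood base. -/
@[reducible] def topo : TopologicalSpace X where
  IsOpen U := ∀ x ∈ U, x ∉ F.D → ∃ n, ∀ w, F.Mem x n w → w ∈ U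
  isOpen_univ := fun _ _ _ => ⟨0, fun _ _ => trivial⟩
  isOpen_inter := by
    intro U V hU hV x hx hxD
    obtain ⟨n, hn⟩ := hU x hx.1 hxD
    obtain ⟨m, hm⟩ := hV x hx.2 hxD
    exact ⟨max n m, fun w hw => ⟨hn w (F.mem_mono (le_max_left _ _) hw),
      hm w (F.mem_mono (le_max_right _ _) hw)⟩⟩
  isOpen_sUnion := by
    intro S hS x hx hxD
    obtain ⟨U, hU, hxU⟩ := hx
    obtain ⟨n, hn⟩ := hS U hU x hxU hxD
    exact ⟨n, fun w hw => ⟨U, hU, hn w hw⟩⟩

lemma isOpen_iff {U : Set X} : IsOpen[F.topo] U ↔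
    ∀ x ∈ U, x ∉ F.D → ∃ n, ∀ w, F.Mem x n w → w ∈ U := Iff.rfl

lemma isOpen_W (x : X) (n : ℕ) : IsOpen[F.topo] {z | F.Mem x n z} := by
  rw [F.isOpen_iff]
  intro z hz _
  exact F.mem_open hz

lemma isOpen_W_compl (x : X) (n : ℕ) : IsOpen[F.topo] {z | F.Mem x n z}ᶜ := by
  rw [F.isOpen_iff]
  intro z hz _
  exact F.mem_clopen x n z hz

lemma isOpen_sub_D {U : Set X} (h : U ⊆ F.D) : IsOpen[F.topo] U := by
  rw [F.isOpen_iff]
  intro x hx hxD
  exact absurd (h hx) hxD

lemma isOpen_E (x : X) (n : ℕ) : IsOpen[F.topo] {z | F.E n x z} := by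
  rw [F.isOpen_iff]
  intro z hz _
  exact ⟨n, fun w hw => F.trans hz (F.mem_E hw)⟩

lemma isOpen_E_compl (x : X) (n : ℕ) : IsOpen[F.topo] {z | F.E n x z}ᶜ := by
  rw [F.isOpen_iff]
  intro z hz _
  exact ⟨n, fun w hw hw' => hz (F.trans hw' (F.symm (F.mem_E hw)))⟩

/-- every subset has a countable subset which is dense in it for the coarse topology -/
lemma exists_dense_seq (H : Set X) (hH : H.Nonempty) :
    ∃ A : ℕ → X, (∀ j, A j ∈ H) ∧ ∀ x ∈ H, ∀ n, ∃ j, F.E n x (A j) := by
  classical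
  obtain ⟨h0, hh0⟩ := hH
  refine ⟨fun i => if h : ∃ w ∈ H, F.E (F.c i).2 (F.c i).1 w then h.choose else h0, ?_, ?_⟩
  · intro j
    dsimp only
    split_ifs with h
    · exact h.choose_spec.1
    · exact hh0
  · intro x hx n
    obtain ⟨i, hi1, hi2⟩ := F.hc x n
    subst hi1
    refine ⟨i, ?_⟩
    have h : ∃ w ∈ H, F.E (F.c i).2 (F.c i).1 w := ⟨x, hx, hi2⟩
    dsimp only
    rw [dif_pos h]
    exact F.trans (F.symm hi2) h.choose_spec.2

/-- The basic form of the closure property built into the targets. -/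
lemma kunen' (A : ℕ → X) : ∃ N : Set X, N.Countable ∧ ∀ x, x ∉ F.D → x ∉ N →
    (∀ n, ∃ j, F.E n x (A j)) → ∀ n, ∃ j m, ∀ w, F.Mem (A j) m w → F.Mem x n w := by
  obtain ⟨N, hN, h⟩ := F.kunen A
  refine ⟨N, hN, fun x hx hxN hA n => ?_⟩
  obtain ⟨k, hk, ht, j, hj⟩ := h x hx hxN hA n
  refine ⟨j, F.mm x k, fun w hw => Mem.step _ _ k _ hx hk ht ?_⟩
  rw [hj]
  exact hw

lemma t1 : @T1Space X F.topo := by
  let _ := F.topo
  refine ⟨fun x => ?_⟩
  rw [← isOpen_compl_iff, F.isOpen_iff]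
  intro z hz hzD
  have : ∃ n, ¬ F.E n z x := by
    by_contra hcon
    push Not at hcon
    exact hz (F.sep _ _ hcon)
  obtain ⟨n, hn⟩ := this
  refine ⟨n, fun w hw hwx => hn ?_⟩
  have := F.mem_E hw
  rw [mem_singleton_iff] at hwx
  rwa [hwx] at this

lemma nhds_basis (x : X) (hx : x ∉ F.D) :
    (@nhds X F.topo x).HasBasis (fun _ : ℕ => True) (fun n => {z | F.Mem x n z}) := by
  let _ := F.topo
  refine ⟨fun U => ?_⟩
  rw [mem_nhds_iff]
  constructor
  · rintro ⟨t, htU, ht, hxt⟩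
    obtain ⟨n, hn⟩ := ht x hxt hx
    exact ⟨n, trivial, fun w hw => htU (hn w hw)⟩
  · rintro ⟨n, _, hn⟩
    exact ⟨_, hn, F.isOpen_W x n, Mem.self x n⟩

lemma firstCountable : @FirstCountableTopology X F.topo := by
  let _ := F.topo
  refine ⟨fun x => ?_⟩
  by_cases hx : x ∈ F.D
  · have : IsOpen ({x} : Set X) := F.isOpen_sub_D (by simpa using hx)
    have h2 : 𝓝 x = pure x := by
      rw [← isOpen_singleton_iff_nhds_eq_pure]
      exact this
    rw [h2]
    infer_instance
  · exact (F.nhds_basis x hx).isCountablyGenerated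

lemma normal : @NormalSpace X F.topo := by
  let _ := F.topo
  have key : ∀ s t : Set X, IsClosed s → IsClosed t → Disjoint s t → HasSeparatingCover s t := by
    intro s t hs ht hst
    -- the open set `s ∩ D`
    -- the exceptional countable set
    obtain ⟨N, hN, hNs⟩ : ∃ N : Set X, N.Countable ∧ ∀ x ∈ s, x ∉ F.D → x ∉ N →
        ∃ n, ∀ z, F.E n x z → z ∈ t → z ∈ F.D := by
      by_cases hne : (t \ F.D).Nonempty
      · obtain ⟨A, hA1, hA2⟩ := F.exists_dense_seq (t \ F.D) hne
        obtain ⟨N, hN, h⟩ := F.kunen' A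
        refine ⟨N, hN, fun x hxs hxD hxN => ?_⟩
        by_contra hcon
        push Not at hcon
        have h1 : ∀ n, ∃ j, F.E n x (A j) := by
          intro n
          obtain ⟨z, hz1, hz2, hz3⟩ := hcon n
          obtain ⟨j, hj⟩ := hA2 z ⟨hz2, hz3⟩ n
          exact ⟨j, F.trans hz1 hj⟩
        have h2 := h x hxD hxN h1
        -- `x` is in the closure of `t`
        have hxt : x ∈ t := by
          rw [← ht.closure_eq, mem_closure_iff_nhds_basis (F.nhds_basis x hxD)]
          intro n _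
          obtain ⟨j, m, hjm⟩ := h2 n
          exact ⟨A j, (hA1 j).1, hjm _ (Mem.self _ _)⟩
        exact Set.disjoint_left.1 hst hxs hxt
      · refine ⟨∅, countable_empty, fun x _ _ _ => ⟨0, fun z _ hz => ?_⟩⟩
        by_contra hzD
        exact hne ⟨z, hz, hzD⟩
    -- the cover
    have hclosE : ∀ x n, (∀ z, F.E n x z → z ∈ t → z ∈ F.D) →
        Disjoint (closure ({z | F.E n x z} \ t)) t := by
      intro x n h
      rw [Set.disjoint_left]
      intro z hz hzt
      by_cases hzD : z ∈ F.D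
      · have h1 : IsOpen ({z} : Set X) := F.isOpen_sub_D (by simpa using hzD)
        rw [mem_closure_iff] at hz
        obtain ⟨w, hw1, hw2⟩ := hz _ h1 rfl
        rw [mem_singleton_iff] at hw1
        subst hw1
        exact hw2.2 hzt
      · rw [mem_closure_iff] at hz
        have hnE : z ∈ {w | F.E n x w}ᶜ := fun h' => hzD (h z h' hzt)
        obtain ⟨w, hw1, hw2⟩ := hz _ (F.isOpen_E_compl x n) hnE
        exact hw1 hw2.1
    have hopenE : ∀ x n, IsOpen ({z | F.E n x z} \ t) := fun x n =>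
      (F.isOpen_E x n).sdiff ht
    -- a countable family of sets
    let fam : Set (Set X) :=
      {s ∩ F.D} ∪ (⋃ x ∈ N, {u | x ∉ F.D ∧ ∃ n, u = {z | F.Mem x n z} ∧ Disjoint u t}) ∪
        {u | ∃ i : ℕ, (∀ z, F.E (F.c i).2 (F.c i).1 z → z ∈ t → z ∈ F.D) ∧
          u = {z | F.E (F.c i).2 (F.c i).1 z} \ t}
    have hfam_count : fam.Countable := by
      refine ((countable_singleton _).union ?_).union ?_
      · refine hN.biUnion fun x _ => ?_
        refine (countable_range (fun n => {z | F.Mem x n z})).mono ?_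
        rintro u ⟨_, n, rfl, _⟩
        exact ⟨n, rfl⟩
      · refine (countable_range (fun i => {z | F.E (F.c i).2 (F.c i).1 z} \ t)).mono ?_
        rintro u ⟨i, _, rfl⟩
        exact ⟨i, rfl⟩
    have hfam_ne : fam.Nonempty := ⟨s ∩ F.D, Or.inl (Or.inl rfl)⟩
    obtain ⟨f, hf⟩ := hfam_count.exists_eq_range hfam_ne
    have hfam_open : ∀ u ∈ fam, IsOpen u ∧ Disjoint (closure u) t := by
      rintro u ((hu | hu) | hu)
      · rw [mem_singleton_iff] at hu
        subst hu
        refine ⟨F.isOpen_sub_D inter_subset_right, ?_⟩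
        exact hst.mono_left ((closure_mono inter_subset_left).trans hs.closure_eq.subset)
      · simp only [mem_iUnion] at hu
        obtain ⟨x, _, _, n, rfl, hd⟩ := hu
        refine ⟨F.isOpen_W x n, ?_⟩
        have : IsClosed {z | F.Mem x n z} := ⟨F.isOpen_W_compl x n⟩
        rwa [this.closure_eq]
      · obtain ⟨i, hi, rfl⟩ := hu
        exact ⟨hopenE _ _, hclosE _ _ hi⟩
    refine ⟨f, ?_, fun n => hfam_open _ (hf ▸ mem_range_self n)⟩
    have hcov : s ⊆ ⋃₀ fam := by
      intro x hx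
      by_cases hxD : x ∈ F.D
      · exact ⟨s ∩ F.D, Or.inl (Or.inl rfl), hx, hxD⟩
      have hxt : x ∈ tᶜ := fun h => Set.disjoint_left.1 hst hx h
      by_cases hxN : x ∈ N
      · obtain ⟨n, hn⟩ := (F.isOpen_iff.1 ht.isOpen_compl) x hxt hxD
        refine ⟨{z | F.Mem x n z}, Or.inl (Or.inr ?_), Mem.self x n⟩
        simp only [mem_iUnion]
        refine ⟨x, hxN, hxD, n, rfl, ?_⟩
        rw [Set.disjoint_left]
        intro w hw
        exact hn w hw
      · obtain ⟨n, hn⟩ := hNs x hx hxD hxN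
        obtain ⟨i, hi1, hi2⟩ := F.hc x n
        subst hi1
        refine ⟨{z | F.E (F.c i).2 (F.c i).1 z} \ t, Or.inr ⟨i, ?_, rfl⟩, hi2, hxt⟩
        intro z hz hzt
        exact hn z (F.trans (F.symm hi2) hz) hzt
    rw [hf, sUnion_range] at hcov
    exact hcov
  refine ⟨fun s t hs ht hst => ?_⟩
  rw [← hasSeparatingCovers_iff_separatedNhds]
  exact ⟨key s t hs ht hst, key t s ht hs hst.symm⟩

lemma weaklyLindelof : @WeaklyLindelof X F.topo := by
  classical
  let _ := F.topo
  intro U hUo hUc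
  -- choose a member of the cover and a basic neighbourhood for every point
  have hch : ∀ x : X, ∃ u ∈ U, x ∈ u ∧ (x ∉ F.D → ∃ n, ∀ w, F.Mem x n w → w ∈ u) := by
    intro x
    have hx : x ∈ ⋃₀ U := hUc ▸ mem_univ x
    obtain ⟨u, hu, hxu⟩ := hx
    exact ⟨u, hu, hxu, fun hxD => hUo u hu x hxu hxD⟩
  choose u huU hxu hbase using hch
  have hch2 : ∀ x : X, ∃ n, x ∉ F.D → ∀ w, F.Mem x n w → w ∈ u x := by
    intro x
    by_cases hx : x ∈ F.D
    · exact ⟨0, fun h => absurd hx h⟩
    · obtain ⟨n, hn⟩ := hbase x hx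
      exact ⟨n, fun _ => hn⟩
  choose g hg using hch2
  -- indices of the basic coarse-open sets whose part in `D` is almost covered
  let J : Set ℕ := {i | ∃ C : Set X, C.Countable ∧
    ∀ d ∈ F.D, F.E (F.c i).2 (F.c i).1 d → ∃ x ∈ C, d ∈ u x}
  have hJ : ∀ i : ℕ, ∃ C : Set X, C.Countable ∧ (i ∈ J →
      ∀ d ∈ F.D, F.E (F.c i).2 (F.c i).1 d → ∃ x ∈ C, d ∈ u x) := by
    intro i
    by_cases hi : i ∈ J
    · obtain ⟨C, hC, h⟩ := hi
      exact ⟨C, hC, fun _ => h⟩
    · exact ⟨∅, countable_empty, fun h => absurd h hi⟩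
  choose C hCc hC using hJ
  -- the part of `D` that is not covered
  let R : Set X := {d | d ∈ F.D ∧ ∀ i ∈ J, ¬ F.E (F.c i).2 (F.c i).1 d}
  have hR : R.Countable := by
    by_contra hRc
    have hRne : R.Nonempty := by
      by_contra h
      rw [not_nonempty_iff_eq_empty] at h
      exact hRc (h ▸ countable_empty)
    obtain ⟨A, hA1, hA2⟩ := F.exists_dense_seq R hRne
    obtain ⟨N, hN, hNk⟩ := F.kunen' A
    have hunc := F.lusin R (fun d hd => hd.1) hRc
    have : ∃ x, x ∉ F.D ∧ (∀ n, ∃ d ∈ R, F.E n x d) ∧ x ∉ N := by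
      by_contra hcon
      push Not at hcon
      refine hunc (hN.mono ?_)
      rintro x ⟨hx1, hx2⟩
      exact hcon x hx1 hx2
    obtain ⟨x, hxD, hxR, hxN⟩ := this
    have hxA : ∀ n, ∃ j, F.E n x (A j) := by
      intro n
      obtain ⟨d, hd, hxd⟩ := hxR n
      obtain ⟨j, hj⟩ := hA2 d hd n
      exact ⟨j, F.trans hxd hj⟩
    obtain ⟨j, m, hjm⟩ := hNk x hxD hxN hxA (g x)
    obtain ⟨i, hi1, hi2⟩ := F.hc (A j) m
    subst hi1
    have hiJ : i ∈ J := by
      refine ⟨{x}, countable_singleton x, fun d _ hd => ⟨x, rfl, ?_⟩⟩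
      refine hg x hxD d (hjm d ?_)
      rw [F.mem_D (hA1 j).1]
      exact F.trans (F.symm hi2) hd
    exact (hA1 j).2 i hiJ hi2
  -- a countable set dense in the complement of `D`
  obtain ⟨P, hP, hPd⟩ : ∃ P : Set X, P.Countable ∧ ∀ x, x ∉ F.D → ∀ n, ∃ z ∈ P, F.Mem x n z := by
    by_cases hne : (F.Dᶜ).Nonempty
    · obtain ⟨A, hA1, hA2⟩ := F.exists_dense_seq (F.Dᶜ) hne
      obtain ⟨N, hN, h⟩ := F.kunen' A
      refine ⟨N ∪ range A, hN.union (countable_range A), fun x hxD n => ?_⟩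
      by_cases hxN : x ∈ N
      · exact ⟨x, Or.inl hxN, Mem.self x n⟩
      · obtain ⟨j, m, hjm⟩ := h x hxD hxN (fun n => hA2 x hxD n) n
        exact ⟨A j, Or.inr (mem_range_self j), hjm _ (Mem.self _ _)⟩
    · refine ⟨∅, countable_empty, fun x hx => absurd ⟨x, hx⟩ hne⟩
  refine ⟨(u '' (⋃ i, C i)) ∪ (u '' R) ∪ (u '' P), ?_, ?_, ?_⟩
  · rintro v ((⟨x, _, rfl⟩ | ⟨x, _, rfl⟩) | ⟨x, _, rfl⟩) <;> exact huU x
  · exact (((countable_iUnion hCc).image u).union (hR.image u)).union (hP.image u)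
  · intro x
    rw [mem_closure_iff]
    intro O hO hxO
    by_cases hxD : x ∈ F.D
    · refine ⟨x, hxO, ?_⟩
      by_cases hxR : x ∈ R
      · exact ⟨u x, Or.inl (Or.inr ⟨x, hxR, rfl⟩), hxu x⟩
      · have : ∃ i ∈ J, F.E (F.c i).2 (F.c i).1 x := by
          by_contra hcon
          push Not at hcon
          exact hxR ⟨hxD, hcon⟩
        obtain ⟨i, hi, hix⟩ := this
        obtain ⟨y, hy, hxy⟩ := hC i hi x hxD hix
        exact ⟨u y, Or.inl (Or.inl ⟨y, mem_iUnion.2 ⟨i, hy⟩, rfl⟩), hxy⟩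
    · obtain ⟨n, hn⟩ := hO x hxO hxD
      obtain ⟨z, hz, hzm⟩ := hPd x hxD n
      exact ⟨z, hn z hzm, u z, Or.inr ⟨z, hz, rfl⟩, hxu z⟩

lemma not_cellularLindelof : ¬ @CellularLindelof X F.topo := by
  classical
  let _ := F.topo
  intro hcl
  obtain ⟨L, hL, hLU⟩ := hcl {v | ∃ d ∈ F.D, v = {d}} (by
    refine ⟨?_, ?_⟩
    · rintro _ ⟨d, hd, rfl⟩
      exact ⟨F.isOpen_sub_D (by simpa using hd), singleton_nonempty d⟩
    · rintro _ ⟨d, _, rfl⟩ _ ⟨e, _, rfl⟩ hne
      rw [Set.disjoint_singleton]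
      rintro rfl
      exact hne rfl)
  have hLD : F.D ⊆ L := by
    intro d hd
    obtain ⟨z, hz, hzd⟩ := hLU {d} ⟨d, hd, rfl⟩
    rw [mem_singleton_iff] at hzd
    exact hzd ▸ hz
  have hLL : IsLindelof L := isLindelof_iff_lindelofSpace.2 hL
  -- the part of `L` in each line is countable
  have hline : ∀ i : ℕ, (L ∩ {x | x ∉ F.D ∧ F.part x = i}).Countable := by
    intro i
    have hclosed : IsClosed {x | x ∉ F.D ∧ F.part x = i} := by
      rw [← isOpen_compl_iff, F.isOpen_iff]
      intro x hx hxD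
      have hp : F.part x ≠ i := fun h => hx ⟨hxD, h⟩
      obtain ⟨m, hm⟩ := F.hpart x i (Or.inr hp)
      exact ⟨m, fun w hw hw' => hm w hw'.1 hw'.2 (F.mem_E hw)⟩
    have hLi : IsLindelof (L ∩ {x | x ∉ F.D ∧ F.part x = i}) := hLL.inter_right hclosed
    obtain ⟨r, hr, hcov⟩ := hLi.elim_countable_subcover
      (fun x : ↥(L ∩ {x | x ∉ F.D ∧ F.part x = i}) => {z | F.Mem x 0 z})
      (fun x => F.isOpen_W x 0) (fun x hx => mem_iUnion.2 ⟨⟨x, hx⟩, Mem.self x 0⟩)
    refine (hr.biUnion fun x _ => F.mem_countable x.1 x.2.2.1 0).mono ?_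
    intro z hz
    obtain ⟨x, hx, hxz⟩ := mem_iUnion₂.1 (hcov hz)
    exact mem_iUnion₂.2 ⟨x, hx, hxz, hz.2.1, hz.2.2.trans x.2.2.2.symm⟩
  have hC : (L ∩ F.Dᶜ).Countable := by
    refine (countable_iUnion hline).mono ?_
    rintro x ⟨hx, hxD⟩
    exact mem_iUnion.2 ⟨F.part x, hx, hxD, rfl⟩
  obtain ⟨h, hh⟩ := F.big _ hC (fun x hx => hx.2)
  obtain ⟨r, hr, hcov⟩ := hLL.elim_countable_subcover
    (fun x : ↥L => if x.1 ∈ F.D then {x.1} else {z | F.E (h x) x z})
    (fun x => by
      split_ifs with hx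
      · exact F.isOpen_sub_D (by simpa using hx)
      · exact F.isOpen_E _ _)
    (fun x hx => mem_iUnion.2 ⟨⟨x, hx⟩, by
      dsimp only
      split_ifs with hx
      · rfl
      · exact F.refl _ _⟩)
  refine hh ((hr.image Subtype.val).mono ?_)
  rintro d ⟨hd, hdC⟩
  obtain ⟨x, hx, hxd⟩ := mem_iUnion₂.1 (hcov (hLD hd))
  by_cases hxD : x.1 ∈ F.D
  · simp only [hxD, if_true, mem_singleton_iff] at hxd
    exact ⟨x, hx, hxd.symm⟩
  · simp only [hxD, if_false] at hxd
    exact absurd hxd (hdC x.1 ⟨x.2, hxD⟩)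

end Frame

/-! ### The concrete frame, under CH -/

/-- The Cantor space. -/
abbrev S := ℕ → Bool

/-- `agree n a b`: the sequences `a`, `b` have the same first `n` terms. -/
def agree (n : ℕ) (a b : S) : Prop := ∀ i < n, a i = b i

lemma agree_refl (n : ℕ) (a : S) : agree n a a := fun _ _ => rfl
lemma agree_symm {n : ℕ} {a b : S} (h : agree n a b) : agree n b a := fun i hi => (h i hi).symm
lemma agree_trans {n : ℕ} {a b c : S} (h : agree n a b) (h' : agree n b c) : agree n a c :=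
  fun i hi => (h i hi).trans (h' i hi)
lemma agree_anti {m n : ℕ} {a b : S} (hmn : m ≤ n) (h : agree n a b) : agree m a b :=
  fun i hi => h i (hi.trans_le hmn)
lemma agree_all {a b : S} (h : ∀ n, agree n a b) : a = b := by
  funext i
  exact h (i + 1) i (Nat.lt_succ_self i)
lemma exists_not_agree {a b : S} (h : a ≠ b) : ∃ n, ¬ agree n a b := by
  by_contra hcon
  push Not at hcon
  exact h (agree_all hcon)

lemma isOpen_of_agree {O : Set S} (h : ∀ z ∈ O, ∃ n, ∀ z', agree n z z' → z' ∈ O) :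
    IsOpen O := by
  rw [isOpen_iff_forall_mem_open]
  intro z hz
  obtain ⟨n, hn⟩ := h z hz
  refine ⟨PiNat.cylinder z n, ?_, PiNat.isOpen_cylinder _ z n, PiNat.self_mem_cylinder z n⟩
  intro w hw
  exact hn w (fun i hi => ((PiNat.mem_cylinder_iff.1 hw) i hi).symm)

lemma dense_of_agree {O : Set S} (h : ∀ a n, ∃ z ∈ O, agree n a z) : Dense O := by
  rw [(PiNat.isTopologicalBasis_cylinders (fun _ : ℕ => Bool)).dense_iff]
  rintro o ⟨x, n, rfl⟩ _
  obtain ⟨z, hz, hxz⟩ := h x n
  exact ⟨z, PiNat.mem_cylinder_iff.2 (fun i hi => (hxz i hi).symm), hz⟩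

/-- An injective enumeration of a countable dense subset of the Cantor space. -/
noncomputable def q (i : ℕ) : S := fun k => decide (k ∈ (Denumerable.eqv (Finset ℕ)).symm i)

lemma q_inj : Function.Injective q := by
  intro i j h
  have h2 : (Denumerable.eqv (Finset ℕ)).symm i = (Denumerable.eqv (Finset ℕ)).symm j := by
    ext k
    have := congrFun h k
    simpa [q] using this
  exact (Denumerable.eqv (Finset ℕ)).symm.injective h2

lemma q_dense (a : S) (n : ℕ) : ∃ i, agree n a (q i) := by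
  refine ⟨Denumerable.eqv (Finset ℕ) ((Finset.range n).filter (fun k => a k = true)),
    fun k hk => ?_⟩
  simp only [q, Equiv.symm_apply_apply, Finset.mem_filter, Finset.mem_range, hk, true_and]
  cases a k <;> simp

/-- The point set. -/
abbrev Pt := (S × S) × Option ℕ

/-- The last coordinate in `K = (S × S) × S` of a point, for a given function whose graph
is the set of isolated points. -/
noncomputable def sec (zf : S × S → S) (x : Pt) : S :=
  match x.2 with
  | some i => q i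
  | none => zf x.1

/-- The coarse equivalence relations on the product of three Cantor spaces. -/
def EK (n : ℕ) (p p' : (S × S) × S) : Prop :=
  agree n p.1.1 p'.1.1 ∧ agree n p.1.2 p'.1.2 ∧ agree n p.2 p'.2

lemma EK_refl (n : ℕ) (p : (S × S) × S) : EK n p p :=
  ⟨agree_refl _ _, agree_refl _ _, agree_refl _ _⟩
lemma EK_symm {n : ℕ} {p p' : (S × S) × S} (h : EK n p p') : EK n p' p :=
  ⟨agree_symm h.1, agree_symm h.2.1, agree_symm h.2.2⟩
lemma EK_trans {n : ℕ} {p p' p'' : (S × S) × S} (h : EK n p p') (h' : EK n p' p'') :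
    EK n p p'' :=
  ⟨agree_trans h.1 h'.1, agree_trans h.2.1 h'.2.1, agree_trans h.2.2 h'.2.2⟩
lemma EK_anti {m n : ℕ} {p p' : (S × S) × S} (hmn : m ≤ n) (h : EK n p p') : EK m p p' :=
  ⟨agree_anti hmn h.1, agree_anti hmn h.2.1, agree_anti hmn h.2.2⟩

/-- A countable dense set of points, with all radii. -/
noncomputable def cK (i : ℕ) : ((S × S) × ℕ) × ℕ :=
  (((q (Nat.unpair (Nat.unpair i).1).1, q (Nat.unpair (Nat.unpair i).1).2),
    (Nat.unpair (Nat.unpair i).2).1), (Nat.unpair (Nat.unpair i).2).2)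

lemma cK_spec (p : (S × S) × S) (n : ℕ) :
    ∃ i, (cK i).2 = n ∧ EK n ((cK i).1.1, q (cK i).1.2) p := by
  obtain ⟨i1, h1⟩ := q_dense p.1.1 n
  obtain ⟨i2, h2⟩ := q_dense p.1.2 n
  obtain ⟨i3, h3⟩ := q_dense p.2 n
  refine ⟨Nat.pair (Nat.pair i1 i2) (Nat.pair i3 n), ?_, ?_⟩
  · simp [cK]
  · simp only [cK, Nat.unpair_pair, EK]
    exact ⟨agree_symm h1, agree_symm h2, agree_symm h3⟩

lemma not_countable_univ_S : ¬ (univ : Set S).Countable := by
  intro h
  have h1 : Cardinal.mk (univ : Set S) ≤ Cardinal.aleph0 :=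
    Cardinal.le_aleph0_iff_set_countable.2 h
  rw [Cardinal.mk_univ] at h1
  have h2 : Cardinal.mk S = Cardinal.continuum := by simp [S]
  rw [h2] at h1
  exact absurd h1 (not_le.2 Cardinal.aleph0_lt_continuum)

lemma mk_plane : Cardinal.mk (S × S) = Cardinal.continuum.{0} := by
  simp [Cardinal.mk_prod, S]

/-- Under CH the plane `S × S` has a well-order with countable initial segments. -/
lemma exists_rank (CH : Cardinal.continuum.{0} = Cardinal.aleph 1) :
    ∃ lt : (S × S) → (S × S) → Prop, WellFounded lt ∧ (∀ y, {y' | ¬ lt y y'}.Countable) ∧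
      ∀ y y', lt y y' → ¬ lt y' y := by
  have h1 : Cardinal.mk (S × S) = Cardinal.mk (Cardinal.aleph 1).ord.ToType := by
    rw [Cardinal.mk_ord_toType, mk_plane, CH]
  obtain ⟨e⟩ := Cardinal.eq.1 h1
  refine ⟨fun y y' => e y < e y', InvImage.wf e wellFounded_lt, ?_, ?_⟩
  · intro y
    have h2 : {y' | ¬ (e y < e y')} = e ⁻¹' (Iic (e y)) := by
      ext y'
      simp
    rw [h2]
    refine Countable.preimage_of_injOn ?_ e.injective.injOn
    have h3 : Cardinal.mk (Iio (e y)) < Cardinal.aleph 1 := Cardinal.mk_Iio_toType_ord_lt (e y)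
    have h4 : (Iio (e y)).Countable := by
      rw [← Cardinal.le_aleph0_iff_set_countable]
      have h5 : Cardinal.aleph 1 = Order.succ Cardinal.aleph0 := by
        rw [← Cardinal.succ_aleph0]
      exact Order.lt_succ_iff.1 (h3.trans_eq h5)
    rw [← Iio_insert]
    exact h4.insert _
  · intro y y' h h'
    exact lt_asymm h h'

/-- There is a surjection from the plane onto the sequences of points. -/
lemma exists_surj : ∃ a : (S × S) → (ℕ → Pt), Function.Surjective a := by
  have h : Cardinal.mk (ℕ → Pt) ≤ Cardinal.mk (S × S) := by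
    rw [mk_plane]
    simp [Pt, S]
  exact (Cardinal.le_def _ _).1 h |>.elim fun f => ⟨Function.invFun f, Function.invFun_surjective f.injective⟩

/-- The last coordinates of the isolated points: a function `S × S → S` whose graph meets
every closed set in a countable set unless the closed set contains uncountably many points
with last coordinate in the range of `q`. -/
lemma exists_zf (lt : (S × S) → (S × S) → Prop)
    (hlt : ∀ y, {y' | ¬ lt y y'}.Countable) (has : ∀ y y', lt y y' → ¬ lt y' y) :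
    ∃ zf : S × S → S, (∀ y i, zf y ≠ q i) ∧ ∀ y y', lt y' y →
      (∀ i, ∃ j, y'.1 j = true ∧ EK (cK j).2 ((cK j).1.1, q (cK j).1.2) (y, q i)) →
      ∃ j, y'.1 j = true ∧ EK (cK j).2 ((cK j).1.1, q (cK j).1.2) (y, zf y) := by
  have key : ∀ y : S × S, ∃ z : S, (∀ i, z ≠ q i) ∧ ∀ y', lt y' y →
      (∀ i, ∃ j, y'.1 j = true ∧ EK (cK j).2 ((cK j).1.1, q (cK j).1.2) (y, q i)) →
      ∃ j, y'.1 j = true ∧ EK (cK j).2 ((cK j).1.1, q (cK j).1.2) (y, z) := by
    intro y
    let T : Set (S × S) := {y' | lt y' y ∧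
      ∀ i, ∃ j, y'.1 j = true ∧ EK (cK j).2 ((cK j).1.1, q (cK j).1.2) (y, q i)}
    have hT : T.Countable := (hlt y).mono (fun y' hy' => has y' y hy'.1)
    let f : S × S → Set S := fun y' =>
      {z | ∃ j, y'.1 j = true ∧ EK (cK j).2 ((cK j).1.1, q (cK j).1.2) (y, z)}
    have hfo : ∀ y', IsOpen (f y') := by
      intro y'
      refine isOpen_of_agree ?_
      rintro z ⟨j, hj1, hj2⟩
      refine ⟨(cK j).2, fun z' hz' => ⟨j, hj1, EK_trans hj2 ?_⟩⟩
      exact ⟨agree_refl _ _, agree_refl _ _, hz'⟩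
    have hfd : ∀ y' ∈ T, Dense (f y') := by
      intro y' hy'
      refine dense_of_agree fun a n => ?_
      obtain ⟨i, hi⟩ := q_dense a n
      exact ⟨q i, hy'.2 i, hi⟩
    have hqo : ∀ i, IsOpen ({q i}ᶜ : Set S) := fun i => isOpen_compl_singleton
    have hqd : ∀ i, Dense ({q i}ᶜ : Set S) := by
      intro i
      refine dense_of_agree fun a n => ?_
      by_cases h : a = q i
      · refine ⟨Function.update a n (!(a n)), ?_, ?_⟩
        · intro h2
          rw [mem_singleton_iff, ← h] at h2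
          have := congrFun h2 n
          simp at this
        · intro k hk
          rw [Function.update_of_ne hk.ne]
      · exact ⟨a, h, agree_refl _ _⟩
    have hd : Dense ((⋂ y' ∈ T, f y') ∩ ⋂ i, ({q i}ᶜ : Set S)) := by
      have h1 : Dense (⋂ y' ∈ T, f y') :=
        dense_biInter_of_isOpen (fun y' _ => hfo y') hT hfd
      have h2 : Dense (⋂ i, ({q i}ᶜ : Set S)) := dense_iInter_of_isOpen hqo hqd
      have g1 : IsGδ (⋂ y' ∈ T, f y') := IsGδ.biInter hT (fun y' _ => (hfo y').isGδ)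
      have g2 : IsGδ (⋂ i, ({q i}ᶜ : Set S)) := IsGδ.iInter_of_isOpen hqo
      exact h1.inter_of_Gδ g1 g2 h2
    obtain ⟨z, hz1, hz2⟩ := hd.nonempty
    refine ⟨z, fun i h => ?_, fun y' hy' hi => ?_⟩
    · exact (mem_iInter.1 hz2 i) h
    · exact mem_iInter₂.1 hz1 y' ⟨hy', hi⟩
  choose zf h1 h2 using key
  exact ⟨zf, h1, h2⟩

/-- Enumerations of initial segments, each element occurring infinitely often. -/
lemma exists_enum (lt : (S × S) → (S × S) → Prop)
    (hlt : ∀ y, {y' | ¬ lt y y'}.Countable) (has : ∀ y y', lt y y' → ¬ lt y' y) :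
    ∃ s : (S × S) → ℕ → S × S, ∀ y y', lt y' y → ∀ n, ∃ k, n ≤ k ∧ s y k = y' := by
  have key : ∀ y : S × S, ∃ s : ℕ → S × S, ∀ y', lt y' y → ∀ n, ∃ k, n ≤ k ∧ s k = y' := by
    intro y
    by_cases hne : {y' | lt y' y}.Nonempty
    · have hc : {y' | lt y' y}.Countable := (hlt y).mono (fun y' hy' => has y' y hy')
      obtain ⟨f, hf⟩ := hc.exists_eq_range hne
      refine ⟨fun k => f (Nat.unpair k).1, fun y' hy' n => ?_⟩
      have : y' ∈ range f := hf ▸ hy'
      obtain ⟨i, hi⟩ := this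
      exact ⟨Nat.pair i n, Nat.right_le_pair i n, by simp [hi]⟩
    · exact ⟨fun _ => y, fun y' hy' => absurd ⟨y', hy'⟩ hne⟩
  choose s hs using key
  exact ⟨s, hs⟩

/-- The relation `E` on points. -/
def EP (zf : S × S → S) (n : ℕ) (x y : Pt) : Prop :=
  EK n (x.1, sec zf x) (y.1, sec zf y)

theorem exists_frame (CH : Cardinal.continuum.{0} = Cardinal.aleph 1) : Nonempty (Frame Pt) := by
  classical
  obtain ⟨lt, hwf, hlt, has⟩ := exists_rank CH
  obtain ⟨a, ha⟩ := exists_surj
  obtain ⟨zf, hzq, hzf⟩ := exists_zf lt hlt has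
  obtain ⟨s, hs⟩ := exists_enum lt hlt has
  let D : Set Pt := {x | x.2 = none}
  let E : ℕ → Pt → Pt → Prop := EP zf
  let part : Pt → ℕ := fun x => x.2.getD 0
  have Erefl : ∀ n x, E n x x := fun n x => EK_refl _ _
  have Esep : ∀ x y, (∀ n, E n x y) → x = y := by
    rintro ⟨⟨x1, x2⟩, x3⟩ ⟨⟨y1, y2⟩, y3⟩ h
    have h1 : x1 = y1 := agree_all fun n => (h n).1
    have h2 : x2 = y2 := agree_all fun n => (h n).2.1
    have h3 : sec zf ((x1, x2), x3) = sec zf ((y1, y2), y3) := agree_all fun n => (h n).2.2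
    subst h1
    subst h2
    cases x3 with
    | none =>
      cases y3 with
      | none => rfl
      | some j => exact absurd h3 (hzq _ _)
    | some i =>
      cases y3 with
      | none => exact absurd h3.symm (hzq _ _)
      | some j =>
        have : i = j := q_inj h3
        rw [this]
  have hpart : ∀ x i, (x ∈ D ∨ part x ≠ i) → ∃ m, ∀ w, w ∉ D → part w = i → ¬ E m x w := by
    intro x i hx
    have hne : sec zf x ≠ q i := by
      obtain ⟨x1, x2⟩ := x
      cases x2 with
      | none => exact hzq _ _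
      | some j =>
        intro h
        have hji : j = i := q_inj h
        rcases hx with hx | hx
        · simp [D] at hx
        · exact hx (by simpa [part] using hji)
    obtain ⟨m, hm⟩ := exists_not_agree hne
    refine ⟨m, fun w hw hwi hE => hm ?_⟩
    obtain ⟨w1, w2⟩ := w
    cases w2 with
    | none => exact absurd rfl hw
    | some j =>
      have : j = i := by simpa [part] using hwi
      subst this
      exact hE.2.2
  let Adm : Pt → ℕ → Pt → Prop := fun x k t => E k x t ∧ t ≠ x ∧ (t ∈ D ∨ lt t.1 x.1)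
  let tgt : Pt → ℕ → Pt := fun x k =>
    if h : ∃ j, Adm x k (a (s x.1 k) j) then a (s x.1 k) h.choose else x
  have htgt : ∀ x k, tgt x k = x ∨ Adm x k (tgt x k) := by
    intro x k
    by_cases h : ∃ j, Adm x k (a (s x.1 k) j)
    · right
      have : tgt x k = a (s x.1 k) h.choose := dif_pos h
      rw [this]
      exact h.choose_spec
    · left
      exact dif_neg h
  have hmm : ∀ x k, ∃ m, k ≤ m ∧ ((tgt x k ∈ D ∨ part (tgt x k) ≠ part x) →
      ∀ w, w ∉ D → part w = part x → ¬ E m (tgt x k) w) := by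
    intro x k
    by_cases h : tgt x k ∈ D ∨ part (tgt x k) ≠ part x
    · obtain ⟨m, hm⟩ := hpart (tgt x k) (part x) h
      refine ⟨max k m, le_max_left _ _, fun _ w hw hwp hE => hm w hw hwp ?_⟩
      exact EK_anti (le_max_right _ _) hE
    · exact ⟨k, le_rfl, fun h' => absurd h' h⟩
  choose mm hmm1 hmm2 using hmm
  refine ⟨{ D := D, E := E, refl := Erefl, symm := fun h => EK_symm h,
            trans := fun h h' => EK_trans h h', anti := fun h h' => EK_anti h h', sep := Esep,
            c := fun i => (((cK i).1.1, some (cK i).1.2), (cK i).2),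
            hc := ?_, part := part, hpart := hpart, tgt := tgt, mm := mm, htgt := ?_,
            hmm := hmm1, lt := fun x x' => lt x.1 x'.1, wf := InvImage.wf Prod.fst hwf,
            hlt := ?_, havoid := ?_, kunen := ?_, lusin := ?_, big := ?_ }⟩
  · -- hc
    intro x n
    obtain ⟨i, hi1, hi2⟩ := cK_spec (x.1, sec zf x) n
    exact ⟨i, hi1, hi2⟩
  · -- htgt
    intro x k
    rcases htgt x k with h | h
    · rw [h]
      exact Erefl k x
    · exact h.1
  · -- hlt
    intro x k _ hne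
    rcases htgt x k with h | h
    · exact absurd h hne
    · exact h.2.2
  · -- havoid
    intro x k _ h w hw hwp
    exact hmm2 x k h w hw hwp
  · -- kunen
    intro A
    obtain ⟨yA, hyA⟩ := ha A
    have hcount : ∀ y : S × S, {x : Pt | ¬ lt y x.1}.Countable := by
      intro y
      have : {x : Pt | ¬ lt y x.1} = {y' | ¬ lt y y'} ×ˢ (univ : Set (Option ℕ)) := by
        ext x
        simp
      rw [this]
      exact (hlt y).prod countable_univ
    refine ⟨{x | ¬ lt yA x.1} ∪ ⋃ j, {x | ¬ lt (A j).1 x.1},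
      (hcount yA).union (countable_iUnion fun j => hcount (A j).1), ?_⟩
    intro x hxD hxN hA n
    simp only [mem_union, mem_iUnion, not_or, not_exists, mem_ofPred_eq, not_not] at hxN
    obtain ⟨hx1, hx2⟩ := hxN
    obtain ⟨k, hk, hsk⟩ := hs x.1 yA hx1 n
    have hadm : ∃ j, Adm x k (a (s x.1 k) j) := by
      obtain ⟨j, hj⟩ := hA k
      refine ⟨j, ?_⟩
      rw [hsk, hyA]
      refine ⟨hj, ?_, Or.inr (hx2 j)⟩
      intro h
      have := hx2 j
      rw [h] at this
      exact has _ _ this this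
    have htk : tgt x k = a (s x.1 k) hadm.choose := dif_pos hadm
    refine ⟨k, hk, ?_, hadm.choose, ?_⟩
    · rw [htk]
      exact hadm.choose_spec.2.1
    · have hsk' : a (s x.1 k) = A := by rw [hsk, hyA]
      rw [htk]
      exact congrFun hsk' _
  · -- lusin
    intro C hCD hCc hcount
    apply hCc
    -- code of the closure of `C`
    let sC : S := fun j => decide (∀ d ∈ C, ¬ EK (cK j).2 ((cK j).1.1, q (cK j).1.2) (d.1, sec zf d))
    let yC : S × S := (sC, sC)
    have hsub : C ⊆ (fun y : S × S => ((y, none) : Pt)) ''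
        ({y | ¬ lt yC y} ∪ Prod.fst '' {x | x ∉ D ∧ ∀ n, ∃ d ∈ C, E n x d}) := by
      intro d hd
      obtain ⟨y, o⟩ := d
      have ho : o = none := hCD hd
      subst ho
      refine ⟨y, ?_, rfl⟩
      by_contra hcon
      simp only [mem_union, not_or, mem_ofPred_eq, not_not, mem_image, not_exists, not_and] at hcon
      obtain ⟨h1, h2⟩ := hcon
      have h3 : ∀ i, ∃ j, yC.1 j = true ∧
          EK (cK j).2 ((cK j).1.1, q (cK j).1.2) (y, q i) := by
        intro i
        have h4 := h2 (y, some i)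
        have h5 : ∃ n, ∀ d ∈ C, ¬ E n (y, some i) d := by
          by_contra hcon
          push Not at hcon
          exact h4 ⟨by simp [D], hcon⟩ rfl
        obtain ⟨n, hn⟩ := h5
        obtain ⟨j, hj1, hj2⟩ := cK_spec (y, q i) n
        subst hj1
        refine ⟨j, ?_, hj2⟩
        simp only [yC, sC, decide_eq_true_eq]
        intro d hd hEd
        exact hn d hd (EK_trans (EK_symm hj2) hEd)
      obtain ⟨j, hj1, hj2⟩ := hzf y yC h1 h3
      simp only [yC, sC, decide_eq_true_eq] at hj1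
      exact hj1 _ hd hj2
    exact (((hlt yC).union (hcount.image _)).image _).mono hsub
  · -- big
    intro C hC hCD
    have hne : ∃ u : S, ∀ x ∈ C, x.1.1 ≠ u := by
      by_contra hcon
      push Not at hcon
      have : (univ : Set S) ⊆ (fun x : Pt => x.1.1) '' C := by
        intro u _
        obtain ⟨x, hx, hxu⟩ := hcon u
        exact ⟨x, hx, hxu⟩
      have h2 := (hC.image (fun x : Pt => x.1.1)).mono this
      exact not_countable_univ_S h2
    obtain ⟨u, hu⟩ := hne
    have hh : ∀ x : Pt, ∃ n, x ∈ C → ¬ agree n x.1.1 u := by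
      intro x
      by_cases hx : x ∈ C
      · obtain ⟨n, hn⟩ := exists_not_agree (hu x hx)
        exact ⟨n, fun _ => hn⟩
      · exact ⟨0, fun h => absurd h hx⟩
    choose h hh using hh
    refine ⟨h, fun hcount => ?_⟩
    have hinj : Function.Injective (fun v : S => (((u, v), none) : Pt)) := by
      intro v v' hv
      simpa using hv
    have : (univ : Set S) ⊆ (fun v : S => (((u, v), none) : Pt)) ⁻¹'
        {d | d ∈ D ∧ ∀ x ∈ C, ¬ E (h x) x d} := by
      intro v _
      refine ⟨rfl, fun x hx hE => hh x hx hE.1⟩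
    have h2 := (hcount.preimage_of_injOn hinj.injOn).mono this
    exact not_countable_univ_S h2

/-- **Negative answer to the question, under CH.**  Assuming the continuum hypothesis there
is a normal `T₁` first-countable weakly Lindelöf space which is not cellular-Lindelöf. -/
theorem result (CH : Cardinal.continuum.{0} = Cardinal.aleph 1) :
    ∃ (X : Type) (_ : TopologicalSpace X), T1Space X ∧ NormalSpace X ∧
      FirstCountableTopology X ∧ WeaklyLindelof X ∧ ¬ CellularLindelof X := by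
  obtain ⟨F⟩ := exists_frame CH
  exact ⟨Pt, F.topo, F.t1, F.normal, F.firstCountable, F.weaklyLindelof,
    F.not_cellularLindelof⟩

end Pool.Agent.Helper21.CH
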